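import Pool.Agent.Helper42.DB.Goals2

set_option autoImplicit false

/-!
# MP_48f005_an, packet COUNT (helper12): the number of centrally singular words
-/

namespace Pool.Agent.Helper42.DB.PkCOUNT

open Set Filter Topology

section general

variable {α : Type} [Finite α]

lemma cnt_mono {n : ℕ} {P Q : (ℕ → α) → Prop} (h : ∀ w, P w → Q w) : cnt n P ≤ cnt n Q :=
  Set.ncard_le_ncard (Set.image_mono (fun w hw => h w hw)) (Set.toFinite _)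

lemma cnt_or (n : ℕ) (P Q : (ℕ → α) → Prop) :
    cnt n (fun w => P w ∨ Q w) ≤ cnt n P + cnt n Q := by
  unfold cnt
  have h : res n '' {w | P w ∨ Q w} = res n '' {w | P w} ∪ res n '' {w | Q w} := by
    rw [← Set.image_union]; rfl
  rw [h]; exact Set.ncard_union_le _ _

lemma cnt_exists {β : Type} (n : ℕ) (s : Finset β) (P : β → (ℕ → α) → Prop) :
    cnt n (fun w => ∃ x ∈ s, P x w) ≤ ∑ x ∈ s, cnt n (P x) := by
  classical
  induction s using Finset.induction_on with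
  | empty => simp [cnt]
  | insert b s hb ih =>
    rw [Finset.sum_insert hb]
    refine le_trans (cnt_mono (Q := fun w => P b w ∨ ∃ x ∈ s, P x w) ?_)
      ((cnt_or n _ _).trans (Nat.add_le_add_left ih _))
    rintro w ⟨x, hx, h⟩
    rcases Finset.mem_insert.mp hx with rfl | hx
    · exact Or.inl h
    · exact Or.inr ⟨x, hx, h⟩

/-- If every word of `Q` satisfies `P r` for all small `r > 0`, then `cnt Q ≤ sup cnt (P r)`. -/
lemma gen (n B : ℕ) (Q : (ℕ → α) → Prop) (P : ℝ → (ℕ → α) → Prop)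
    (hB : ∀ᶠ r in 𝓝[>] (0 : ℝ), cnt n (P r) ≤ B)
    (hQ : ∀ w, Q w → ∀ᶠ r in 𝓝[>] (0 : ℝ), P r w) : cnt n Q ≤ B := by
  have h1 : ∀ᶠ r in 𝓝[>] (0 : ℝ), ∀ s ∈ res n '' {w | Q w}, s ∈ res n '' {w | P r w} := by
    rw [Filter.eventually_all_finite (Set.toFinite _)]
    rintro s ⟨w, hw, rfl⟩
    exact (hQ w hw).mono fun r hr => ⟨w, hr, rfl⟩
  obtain ⟨r, hr1, hr2⟩ := (h1.and hB).exists
  exact (Set.ncard_le_ncard hr1 (Set.toFinite _)).trans hr2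

end general

variable {S : Sys}

/-- Intermediate values of a continuous coordinate in a cylinder. -/
lemma ivt (hC : G_CONN S) (F : St S → ℝ)
    (hF : ∀ (i : S.ι) (x : ℝ → St S), Fam i 0 1 x → ContinuousOn (fun l => F (x l)) (Icc 0 1))
    {a : ℕ} {w : ℕ → S.ι} {z z' : ℕ → St S} (hz : Cyl (2 * a + 1) w z)
    (hz' : Cyl (2 * a + 1) w z') {c : ℝ} (h1 : F (z a) ≤ c) (h2 : c ≤ F (z' a)) :
    ∃ y : ℕ → St S, Cyl (2 * a + 1) w y ∧ F (y a) = c := by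
  obtain ⟨Z, hZ, hends, hfam⟩ := hC (2 * a + 1) w z z' (by omega) hz hz'
  have ha : a ≤ 2 * a + 1 := by omega
  have hcont := hF _ _ (hfam a ha).1
  have hsub := intermediate_value_Icc (zero_le_one' ℝ) hcont
  have hmem : c ∈ Icc (F (Z 0 a)) (F (Z 1 a)) := by
    rw [(hends a ha).1, (hends a ha).2]; exact ⟨h1, h2⟩
  obtain ⟨l, hl, hlc⟩ := hsub hmem
  exact ⟨Z l, hZ l hl, hlc⟩

lemma contu (i : S.ι) (x : ℝ → St S) (h : Fam i 0 1 x) :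
    ContinuousOn (fun l => (x l).u) (Icc 0 1) := h.cu

lemma contφ (i : S.ι) (x : ℝ → St S) (h : Fam i 0 1 x) :
    ContinuousOn (fun l => (x l).φ) (Icc 0 1) := h.cφ

/-- Type 1: the central state can be made close to the end `a`. -/
def Q1 (S : Sys) (a : ℕ) (i : S.ι) (w : ℕ → S.ι) : Prop :=
  w a = i ∧ ∀ δ : ℝ, 0 < δ → ∃ z : ℕ → St S, Cyl (2 * a + 1) w z ∧ (z a).u < S.a (w a) + δ

/-- Type 2: close to the end `b`. -/
def Q2 (S : Sys) (a : ℕ) (i : S.ι) (w : ℕ → S.ι) : Prop :=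
  w a = i ∧ ∀ δ : ℝ, 0 < δ → ∃ z : ℕ → St S, Cyl (2 * a + 1) w z ∧ S.b (w a) - δ < (z a).u

/-- Type 3: close to tangent, positive side. -/
def Q3 (S : Sys) (a : ℕ) (i : S.ι) (w : ℕ → S.ι) : Prop :=
  w a = i ∧ ∀ δ : ℝ, 0 < δ → ∃ z : ℕ → St S, Cyl (2 * a + 1) w z ∧ Real.pi / 2 - δ < (z a).φ

/-- Type 4: close to tangent, negative side. -/
def Q4 (S : Sys) (a : ℕ) (i : S.ι) (w : ℕ → S.ι) : Prop :=
  w a = i ∧ ∀ δ : ℝ, 0 < δ → ∃ z : ℕ → St S, Cyl (2 * a + 1) w z ∧ (z a).φ < -(Real.pi / 2 - δ)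

lemma Ok_a {a : ℕ} {w : ℕ → S.ι} {z : ℕ → St S} (h : Cyl (2 * a + 1) w z) :
    (z a).u ∈ Ioo (S.a (w a)) (S.b (w a)) ∧ |(z a).φ| < Real.pi / 2 := by
  have h1 := h.1.1 a (by omega)
  have h2 := h.2 a (by omega)
  rw [← h2]; exact h1

lemma cntQ1 (hC : G_CONN S) (hE : G_CE S) (a : ℕ) (i : S.ι) :
    cnt (2 * a + 1) (Q1 S a i) ≤ AW S (a + 1) + AW S a := by
  refine gen _ _ _ (fun r w => w a = i ∧ ∃ z : ℕ → St S, Cyl (2 * a + 1) w z ∧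
    (z a).u = S.a i + r) ?_ ?_
  · have h := S.hab i
    filter_upwards [Ioo_mem_nhdsGT (sub_pos.mpr h)] with r hr
    exact hE a i (S.a i + r) ⟨by linarith [hr.1], by linarith [hr.2]⟩
  · rintro w ⟨hi, hw⟩
    obtain ⟨z', hz', -⟩ := hw 1 one_pos
    have hu' := (Ok_a hz').1.1
    filter_upwards [Ioo_mem_nhdsGT (sub_pos.mpr hu')] with r hr
    obtain ⟨z'', hz'', hlt⟩ := hw r hr.1
    subst hi
    obtain ⟨y, hy, hyu⟩ := ivt hC (fun x => x.u) contu hz'' hz' (c := S.a (w a) + r)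
      hlt.le (by linarith [hr.2])
    exact ⟨rfl, y, hy, hyu⟩

lemma cntQ2 (hC : G_CONN S) (hE : G_CE S) (a : ℕ) (i : S.ι) :
    cnt (2 * a + 1) (Q2 S a i) ≤ AW S (a + 1) + AW S a := by
  refine gen _ _ _ (fun r w => w a = i ∧ ∃ z : ℕ → St S, Cyl (2 * a + 1) w z ∧
    (z a).u = S.b i - r) ?_ ?_
  · have h := S.hab i
    filter_upwards [Ioo_mem_nhdsGT (sub_pos.mpr h)] with r hr
    exact hE a i (S.b i - r) ⟨by linarith [hr.2], by linarith [hr.1]⟩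
  · rintro w ⟨hi, hw⟩
    obtain ⟨z', hz', -⟩ := hw 1 one_pos
    have hu' := (Ok_a hz').1.2
    filter_upwards [Ioo_mem_nhdsGT (sub_pos.mpr hu')] with r hr
    obtain ⟨z'', hz'', hlt⟩ := hw r hr.1
    subst hi
    obtain ⟨y, hy, hyu⟩ := ivt hC (fun x => x.u) contu hz' hz'' (c := S.b (w a) - r)
      (by linarith [hr.2]) hlt.le
    exact ⟨rfl, y, hy, hyu⟩

lemma cntQ3 (hC : G_CONN S) (hG : G_CG S) (a : ℕ) (i : S.ι) :
    cnt (2 * a + 1) (Q3 S a i) ≤ AW S (a + 1) + AW S a := by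
  refine gen _ _ _ (fun r w => w a = i ∧ ∃ z : ℕ → St S, Cyl (2 * a + 1) w z ∧
    (z a).φ = Real.pi / 2 - r) ?_ ?_
  · filter_upwards [Ioo_mem_nhdsGT Real.pi_pos] with r hr
    exact hG a i (Real.pi / 2 - r) (abs_lt.mpr ⟨by linarith [hr.2], by linarith [hr.1]⟩)
  · rintro w ⟨hi, hw⟩
    obtain ⟨z', hz', -⟩ := hw 1 one_pos
    have hu' := (abs_lt.mp (Ok_a hz').2).2
    filter_upwards [Ioo_mem_nhdsGT (sub_pos.mpr hu')] with r hr
    obtain ⟨z'', hz'', hlt⟩ := hw r hr.1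
    subst hi
    obtain ⟨y, hy, hyu⟩ := ivt hC (fun x => x.φ) contφ hz' hz'' (c := Real.pi / 2 - r)
      (by linarith [hr.2]) hlt.le
    exact ⟨rfl, y, hy, hyu⟩

lemma cntQ4 (hC : G_CONN S) (hG : G_CG S) (a : ℕ) (i : S.ι) :
    cnt (2 * a + 1) (Q4 S a i) ≤ AW S (a + 1) + AW S a := by
  refine gen _ _ _ (fun r w => w a = i ∧ ∃ z : ℕ → St S, Cyl (2 * a + 1) w z ∧
    (z a).φ = -(Real.pi / 2 - r)) ?_ ?_
  · filter_upwards [Ioo_mem_nhdsGT Real.pi_pos] with r hr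
    exact hG a i (-(Real.pi / 2 - r)) (abs_lt.mpr ⟨by linarith [hr.1], by linarith [hr.2]⟩)
  · rintro w ⟨hi, hw⟩
    obtain ⟨z', hz', -⟩ := hw 1 one_pos
    have hu' := (abs_lt.mp (Ok_a hz').2).1
    filter_upwards [Ioo_mem_nhdsGT (sub_pos.mpr hu')] with r hr
    obtain ⟨z'', hz'', hlt⟩ := hw r hr.1
    subst hi
    obtain ⟨y, hy, hyu⟩ := ivt hC (fun x => x.φ) contφ hz'' hz' (c := -(Real.pi / 2 - r))
      hlt.le (by linarith [hr.2])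
    exact ⟨rfl, y, hy, hyu⟩

/-! ### Locality and reversal -/

lemma local_cyl {a : ℕ} {w w' : ℕ → S.ι} (h : ∀ k ≤ 2 * a + 1, w k = w' k)
    (T : (ℕ → St S) → Prop) (hw : ∃ z : ℕ → St S, Cyl (2 * a + 1) w z ∧ T z) :
    ∃ z : ℕ → St S, Cyl (2 * a + 1) w' z ∧ T z := by
  obtain ⟨z, hz, hT⟩ := hw
  exact ⟨z, hz.congr h, hT⟩

lemma local1 (a : ℕ) (i : S.ι) (w w' : ℕ → S.ι) (h : ∀ k ≤ 2 * a + 1, w k = w' k) :
    Q1 S a i w → Q1 S a i w' := by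
  rintro ⟨hi, hw⟩
  have ha := h a (by omega)
  refine ⟨ha ▸ hi, fun δ hδ => ?_⟩
  rw [← ha]; exact local_cyl h _ (hw δ hδ)

lemma local2 (a : ℕ) (i : S.ι) (w w' : ℕ → S.ι) (h : ∀ k ≤ 2 * a + 1, w k = w' k) :
    Q2 S a i w → Q2 S a i w' := by
  rintro ⟨hi, hw⟩
  have ha := h a (by omega)
  refine ⟨ha ▸ hi, fun δ hδ => ?_⟩
  rw [← ha]; exact local_cyl h _ (hw δ hδ)

lemma local3 (a : ℕ) (i : S.ι) (w w' : ℕ → S.ι) (h : ∀ k ≤ 2 * a + 1, w k = w' k) :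
    Q3 S a i w → Q3 S a i w' := by
  rintro ⟨hi, hw⟩
  have ha := h a (by omega)
  exact ⟨ha ▸ hi, fun δ hδ => local_cyl h _ (hw δ hδ)⟩

lemma local4 (a : ℕ) (i : S.ι) (w w' : ℕ → S.ι) (h : ∀ k ≤ 2 * a + 1, w k = w' k) :
    Q4 S a i w → Q4 S a i w' := by
  rintro ⟨hi, hw⟩
  have ha := h a (by omega)
  exact ⟨ha ▸ hi, fun δ hδ => local_cyl h _ (hw δ hδ)⟩

lemma rev_cyl {a : ℕ} {w : ℕ → S.ι} (T T' : St S → Prop) (hT : ∀ x, T x → T' x.rev)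
    (hw : ∃ z : ℕ → St S, Cyl (2 * a + 1) w z ∧ T (z (a + 1))) :
    ∃ z : ℕ → St S, Cyl (2 * a + 1) (fun k => w (2 * a + 1 - k)) z ∧ T' (z a) := by
  obtain ⟨z, hz, h⟩ := hw
  refine ⟨_, hz.rev, ?_⟩
  have h1 : 2 * a + 1 - a = a + 1 := by omega
  simp only [h1]
  exact hT _ h

lemma rev_a (a : ℕ) (w : ℕ → S.ι) : (fun k => w (2 * a + 1 - k)) a = w (a + 1) := by
  have h1 : 2 * a + 1 - a = a + 1 := by omega
  simp only [h1]

/-! ### Near misses -/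

/-- Type 9. -/
def Q9 (S : Sys) (a : ℕ) (l : S.ι) (σ : ℝ) (w : ℕ → S.ι) : Prop :=
  w a ≠ l ∧ w (a + 1) ≠ l ∧ ∃ η r1 : ℝ, 0 < η ∧ 0 < r1 ∧ ∀ r ∈ Ioo 0 r1,
    ∃ z : ℕ → St S, Cyl (2 * a + 1) w z ∧ TanPass a l σ η r z

lemma tanPass_mono {a : ℕ} {l : S.ι} {σ η η' r : ℝ} {z : ℕ → St S} (h : TanPass a l σ η r z)
    (hη : η' ≤ η) : TanPass a l σ η' r z := by
  obtain ⟨u, hu, h1, h2, h3, h4⟩ := h
  exact ⟨u, ⟨by linarith [hu.1], by linarith [hu.2]⟩, h1, h2,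
    ⟨by linarith [h3.1], by linarith [h3.2]⟩, ⟨by linarith [h4.1], by linarith [h4.2]⟩⟩

lemma cntQ9 (hT : G_CMT S) (a : ℕ) (l : S.ι) (σ : ℝ) (hσ : σ = 1 ∨ σ = -1) :
    cnt (2 * a + 1) (Q9 S a l σ) ≤ 2 * AW S a := by
  refine gen _ _ _ (fun η w => w a ≠ l ∧ w (a + 1) ≠ l ∧ ∃ r1 : ℝ, 0 < r1 ∧ ∀ r ∈ Ioo 0 r1,
    ∃ z : ℕ → St S, Cyl (2 * a + 1) w z ∧ TanPass a l σ η r z) ?_ ?_
  · filter_upwards [self_mem_nhdsWithin] with η hη
    obtain ⟨r1, hr1, hcount⟩ := hT l σ η hσ hη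
    refine gen _ _ _ (fun r w => w a ≠ l ∧ w (a + 1) ≠ l ∧
      ∃ z : ℕ → St S, Cyl (2 * a + 1) w z ∧ TanPass a l σ η r z) ?_ ?_
    · filter_upwards [Ioo_mem_nhdsGT hr1] with r hr
      exact hcount r hr a
    · rintro w ⟨h1, h2, r2, hr2, h⟩
      filter_upwards [Ioo_mem_nhdsGT hr2] with r hr
      exact ⟨h1, h2, h r hr⟩
  · rintro w ⟨h1, h2, η0, r1, hη0, hr1, h⟩
    filter_upwards [Ioo_mem_nhdsGT hη0] with η hη
    refine ⟨h1, h2, r1, hr1, fun r hr => ?_⟩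
    obtain ⟨z, hz, hp⟩ := h r hr
    exact ⟨z, hz, tanPass_mono hp hη.2.le⟩

/-- Type 10. -/
def Q10 (S : Sys) (a : ℕ) (l : S.ι) (v : ℝ) (k : ℕ) (w : ℕ → S.ι) : Prop :=
  ∃ t1 : ℝ, 0 < t1 ∧ ∀ t ∈ Ioo 0 t1, ∃ z : ℕ → St S, Cyl (2 * a + 1) w z ∧
    S.g l v + t • ee (k * (Real.pi / 4)) ∈ openSegment ℝ (z a).pos (z (a + 1)).pos

lemma cntQ10 (hM : G_CMC S) (a : ℕ) (l : S.ι) (v : ℝ) (k : ℕ) :
    cnt (2 * a + 1) (Q10 S a l v k) ≤ 8 * AW S a := by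
  refine gen _ _ _ (fun t w => ∃ z : ℕ → St S, Cyl (2 * a + 1) w z ∧
    S.g l v + t • ee (k * (Real.pi / 4)) ∈ openSegment ℝ (z a).pos (z (a + 1)).pos) ?_ ?_
  · exact Eventually.of_forall fun t => hM a _
  · rintro w ⟨t1, ht1, h⟩
    filter_upwards [Ioo_mem_nhdsGT ht1] with t ht
    exact h t ht

theorem thm (S : Sys) : G_CONN S → G_REVCNT → G_CE S → G_CG S → G_CMC S → G_CMT S →
    G_CLASS S → G_MTM S → G_MCM S → G_COUNT S := by
  intro hC hRev hE hG hMC hMT hCl hMTM hMCM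
  classical
  set N : ℕ := Fintype.card S.ι with hN
  refine ⟨140 * N, fun a => ?_⟩
  set T : ℕ := AW S (a + 1) + AW S a with hT
  -- the types
  let A1 : (ℕ → S.ι) → Prop := fun w => ∃ i ∈ (Finset.univ : Finset S.ι), Q1 S a i w
  let A2 : (ℕ → S.ι) → Prop := fun w => ∃ i ∈ (Finset.univ : Finset S.ι), Q2 S a i w
  let A3 : (ℕ → S.ι) → Prop := fun w => ∃ i ∈ (Finset.univ : Finset S.ι), Q3 S a i w
  let A4 : (ℕ → S.ι) → Prop := fun w => ∃ i ∈ (Finset.univ : Finset S.ι), Q4 S a i w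
  let rv : (ℕ → S.ι) → (ℕ → S.ι) := fun w k => w (2 * a + 1 - k)
  let A9 : (ℕ → S.ι) → Prop := fun w => ∃ x ∈ (Finset.univ : Finset (S.ι × Bool)),
    Q9 S a x.1 (if x.2 then 1 else -1) w
  let A10 : (ℕ → S.ι) → Prop := fun w => ∃ x ∈ (Finset.univ : Finset (S.ι × Bool × Fin 8)),
    Q10 S a x.1 (if x.2.1 then S.a x.1 else S.b x.1) x.2.2 w
  have hsum : ∀ (P : S.ι → (ℕ → S.ι) → Prop), (∀ i, cnt (2 * a + 1) (P i) ≤ T) →
      cnt (2 * a + 1) (fun w => ∃ i ∈ (Finset.univ : Finset S.ι), P i w) ≤ N * T := by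
    intro P hP
    refine (cnt_exists _ _ _).trans ((Finset.sum_le_card_nsmul _ _ T fun i _ => hP i).trans ?_)
    simp [hN]
  have c1 : cnt (2 * a + 1) A1 ≤ N * T := hsum _ (cntQ1 hC hE a)
  have c2 : cnt (2 * a + 1) A2 ≤ N * T := hsum _ (cntQ2 hC hE a)
  have c3 : cnt (2 * a + 1) A3 ≤ N * T := hsum _ (cntQ3 hC hG a)
  have c4 : cnt (2 * a + 1) A4 ≤ N * T := hsum _ (cntQ4 hC hG a)
  have hloc : ∀ (P : S.ι → (ℕ → S.ι) → Prop),
      (∀ i w w', (∀ k ≤ 2 * a + 1, w k = w' k) → P i w → P i w') →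
      cnt (2 * a + 1) (fun w => ∃ i ∈ (Finset.univ : Finset S.ι), P i (rv w)) =
      cnt (2 * a + 1) (fun w => ∃ i ∈ (Finset.univ : Finset S.ι), P i w) := by
    intro P hP
    refine hRev S.ι (2 * a + 1) (fun w => ∃ i ∈ (Finset.univ : Finset S.ι), P i w) ?_
    rintro w w' h ⟨i, hi, hPi⟩
    exact ⟨i, hi, hP i w w' h hPi⟩
  have d1 : cnt (2 * a + 1) (fun w => A1 (rv w)) ≤ N * T :=
    (hloc _ (fun i => local1 a i)).trans_le c1
  have d2 : cnt (2 * a + 1) (fun w => A2 (rv w)) ≤ N * T :=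
    (hloc _ (fun i => local2 a i)).trans_le c2
  have d3 : cnt (2 * a + 1) (fun w => A3 (rv w)) ≤ N * T :=
    (hloc _ (fun i => local3 a i)).trans_le c3
  have d4 : cnt (2 * a + 1) (fun w => A4 (rv w)) ≤ N * T :=
    (hloc _ (fun i => local4 a i)).trans_le c4
  have c9 : cnt (2 * a + 1) A9 ≤ (N * 2) * (2 * AW S a) := by
    refine (cnt_exists _ _ _).trans ((Finset.sum_le_card_nsmul _ _ (2 * AW S a)
      fun x _ => cntQ9 hMT a x.1 _ ?_).trans ?_)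
    · rcases x.2 with _ | _ <;> simp
    · simp [hN]
  have c10 : cnt (2 * a + 1) A10 ≤ (N * 16) * (8 * AW S a) := by
    refine (cnt_exists _ _ _).trans ((Finset.sum_le_card_nsmul _ _ (8 * AW S a)
      fun x _ => cntQ10 hMC a x.1 _ _).trans ?_)
    simp [hN]
  have hcover : ∀ w, Sing S a w → A1 w ∨ A2 w ∨ A1 (rv w) ∨ A2 (rv w) ∨ A3 w ∨ A4 w ∨
      A4 (rv w) ∨ A3 (rv w) ∨ A9 w ∨ A10 w := by
    intro w hw
    have hra : rv w a = w (a + 1) := rev_a a w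
    rcases hCl a w hw with h | h | h | h | h | h | h | h | ⟨l, h1, h2, v, hv, hL⟩
    · exact Or.inl ⟨w a, Finset.mem_univ _, rfl, h⟩
    · exact Or.inr (Or.inl ⟨w a, Finset.mem_univ _, rfl, h⟩)
    · refine Or.inr (Or.inr (Or.inl ⟨_, Finset.mem_univ _, rfl, fun δ hδ => ?_⟩))
      rw [hra]
      exact rev_cyl (fun x => x.u < S.a (w (a + 1)) + δ) (fun x => x.u < S.a (w (a + 1)) + δ)
        (fun x hx => hx) (h δ hδ)
    · refine Or.inr (Or.inr (Or.inr (Or.inl ⟨_, Finset.mem_univ _, rfl, fun δ hδ => ?_⟩)))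
      rw [hra]
      exact rev_cyl (fun x => S.b (w (a + 1)) - δ < x.u) (fun x => S.b (w (a + 1)) - δ < x.u)
        (fun x hx => hx) (h δ hδ)
    · exact Or.inr (Or.inr (Or.inr (Or.inr (Or.inl ⟨w a, Finset.mem_univ _, rfl, h⟩))))
    · exact Or.inr (Or.inr (Or.inr (Or.inr (Or.inr (Or.inl ⟨w a, Finset.mem_univ _, rfl, h⟩)))))
    · refine Or.inr (Or.inr (Or.inr (Or.inr (Or.inr (Or.inr (Or.inl
        ⟨_, Finset.mem_univ _, rfl, fun δ hδ => ?_⟩))))))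
      exact rev_cyl (fun x => Real.pi / 2 - δ < x.φ) (fun x => x.φ < -(Real.pi / 2 - δ))
        (fun x hx => by rw [St.rev_φ]; exact neg_lt_neg hx) (h δ hδ)
    · refine Or.inr (Or.inr (Or.inr (Or.inr (Or.inr (Or.inr (Or.inr (Or.inl
        ⟨_, Finset.mem_univ _, rfl, fun δ hδ => ?_⟩)))))))
      exact rev_cyl (fun x => x.φ < -(Real.pi / 2 - δ)) (fun x => Real.pi / 2 - δ < x.φ)
        (fun x hx => by rw [St.rev_φ]; linarith) (h δ hδ)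
    · by_cases hv1 : v = S.a l ∨ v = S.b l
      · refine Or.inr (Or.inr (Or.inr (Or.inr (Or.inr (Or.inr (Or.inr (Or.inr (Or.inr ?_))))))))
        obtain ⟨k, t1, hk, ht1, h⟩ := hMCM a w l v h1 h2 hv1 hL
        rcases hv1 with hv1 | hv1
        · exact ⟨(l, true, ⟨k, hk⟩), Finset.mem_univ _, t1, ht1, by simpa [hv1] using h⟩
        · exact ⟨(l, false, ⟨k, hk⟩), Finset.mem_univ _, t1, ht1, by simpa [hv1] using h⟩
      · refine Or.inr (Or.inr (Or.inr (Or.inr (Or.inr (Or.inr (Or.inr (Or.inr (Or.inl ?_))))))))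
        push Not at hv1
        have hvI : v ∈ Ioo (S.a l) (S.b l) :=
          ⟨lt_of_le_of_ne hv.1 (Ne.symm hv1.1), lt_of_le_of_ne hv.2 hv1.2⟩
        obtain ⟨σ, η, r1, hσ, hη, hr1, h⟩ := hMTM a w l v h1 h2 hvI hL
        rcases hσ with rfl | rfl
        · exact ⟨(l, true), Finset.mem_univ _, h1, h2, η, r1, hη, hr1, by simpa using h⟩
        · exact ⟨(l, false), Finset.mem_univ _, h1, h2, η, r1, hη, hr1, by simpa using h⟩
  have htot : cnt (2 * a + 1) (Sing S a) ≤ N * T + (N * T + (N * T + (N * T + (N * T + (N * T +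
      (N * T + (N * T + ((N * 2) * (2 * AW S a) + (N * 16) * (8 * AW S a))))))))) := by
    refine (cnt_mono hcover).trans ?_
    refine (cnt_or _ _ _).trans (Nat.add_le_add c1 ?_)
    refine (cnt_or _ _ _).trans (Nat.add_le_add c2 ?_)
    refine (cnt_or _ _ _).trans (Nat.add_le_add d1 ?_)
    refine (cnt_or _ _ _).trans (Nat.add_le_add d2 ?_)
    refine (cnt_or _ _ _).trans (Nat.add_le_add c3 ?_)
    refine (cnt_or _ _ _).trans (Nat.add_le_add c4 ?_)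
    refine (cnt_or _ _ _).trans (Nat.add_le_add d4 ?_)
    refine (cnt_or _ _ _).trans (Nat.add_le_add d3 ?_)
    exact (cnt_or _ _ _).trans (Nat.add_le_add c9 c10)
  have hfin : cnt (2 * a + 1) (Sing S a) ≤ 140 * N * (AW S a + AW S (a + 1)) := by
    refine htot.trans ?_
    rw [hT]
    nlinarith [Nat.zero_le (N * AW S (a + 1))]
  exact_mod_cast hfin

end Pool.Agent.Helper42.DB.PkCOUNT
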