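import Pool.Agent.Helper42.DB.Goals2

set_option autoImplicit false

/-!
# MP_48f005_an, packet SUBFEK (helper12): submultiplicativity and Fekete
-/

namespace Pool.Agent.Helper42.DB.PkSUBFEK

open Set Filter Topology

lemma cnt_mono {α : Type} [Finite α] {n : ℕ} {P Q : (ℕ → α) → Prop} (h : ∀ w, P w → Q w) :
    cnt n P ≤ cnt n Q :=
  Set.ncard_le_ncard (Set.image_mono (fun w hw => h w hw)) (Set.toFinite _)

lemma sh_zero {α : Type} (w : ℕ → α) : sh 0 w = w := by
  funext k; simp [sh]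

lemma subm : G_CAT → G_SUBM := by
  intro hcat α _ L m n
  refine le_trans (cnt_mono (Q := fun w => L.P m w ∧ L.P n (sh m w)) ?_) (hcat α m n (L.P m) (L.P n))
  intro w hw
  refine ⟨?_, L.sub (m + n) m n w le_rfl hw⟩
  have h := L.sub (m + n) 0 m w (by omega) hw
  rwa [sh_zero] at h

lemma fek : G_SUBM → G_FEK := by
  intro hsub α _ L hpos
  set u : ℕ → ℝ := fun n => Real.log (L.A n) with hu
  have hA1 : ∀ n, (1 : ℝ) ≤ L.A n := fun n => by exact_mod_cast hpos n
  have hA0 : ∀ n, (0 : ℝ) < L.A n := fun n => lt_of_lt_of_le one_pos (hA1 n)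
  have hu0 : ∀ n, 0 ≤ u n := fun n => Real.log_nonneg (hA1 n)
  have hexp : ∀ n, Real.exp (u n) = L.A n := fun n => Real.exp_log (hA0 n)
  have hS : Subadditive u := by
    intro m n
    simp only [hu]
    rw [← Real.log_mul (hA0 m).ne' (hA0 n).ne']
    exact Real.log_le_log (hA0 _) (by exact_mod_cast hsub α L m n)
  have hbdd : BddBelow (range fun n => u n / n) := by
    refine ⟨0, ?_⟩
    rintro _ ⟨n, rfl⟩
    exact div_nonneg (hu0 n) (Nat.cast_nonneg n)
  have hlim := hS.tendsto_lim hbdd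
  have hh0 : 0 ≤ hS.lim := ge_of_tendsto' hlim fun n => div_nonneg (hu0 n) (Nat.cast_nonneg n)
  refine ⟨hS.lim, hh0, fun n => ?_, fun ζ hζ => ?_⟩
  · rcases Nat.eq_zero_or_pos n with rfl | hn
    · simpa using hA1 0
    · have hle := hS.lim_le_div hbdd hn.ne'
      have hn' : (0 : ℝ) < n := by exact_mod_cast hn
      rw [← hexp n]
      apply Real.exp_le_exp.mpr
      rwa [le_div_iff₀ hn'] at hle
  · have hev : ∀ᶠ n : ℕ in atTop, u n / n < hS.lim + ζ :=
      hlim.eventually (gt_mem_nhds (by linarith))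
    obtain ⟨n0, hn0⟩ := eventually_atTop.mp hev
    refine ⟨1 + ∑ n ∈ Finset.range (n0 + 1), (L.A n : ℝ), ?_, fun n => ?_⟩
    · have : 0 ≤ ∑ n ∈ Finset.range (n0 + 1), (L.A n : ℝ) :=
        Finset.sum_nonneg fun n _ => (hA0 n).le
      linarith
    · have hsum : 0 ≤ ∑ n ∈ Finset.range (n0 + 1), (L.A n : ℝ) :=
        Finset.sum_nonneg fun n _ => (hA0 n).le
      have hE : 1 ≤ Real.exp ((hS.lim + ζ) * n) :=
        Real.one_le_exp (mul_nonneg (by linarith) (Nat.cast_nonneg n))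
      rcases Nat.lt_or_ge n (n0 + 1) with hlt | hge
      · have h1 : (L.A n : ℝ) ≤ ∑ n ∈ Finset.range (n0 + 1), (L.A n : ℝ) :=
          Finset.single_le_sum (f := fun n => (L.A n : ℝ)) (fun n _ => (hA0 n).le)
            (Finset.mem_range.mpr hlt)
        calc (L.A n : ℝ) ≤ (1 + ∑ n ∈ Finset.range (n0 + 1), (L.A n : ℝ)) * 1 := by linarith
          _ ≤ _ := mul_le_mul_of_nonneg_left hE (by linarith)
      · have hn' : (0 : ℝ) < n := by exact_mod_cast (by omega : 0 < n)
        have h2 := hn0 n (by omega)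
        rw [div_lt_iff₀ hn'] at h2
        rw [← hexp n]
        calc Real.exp (u n) ≤ Real.exp ((hS.lim + ζ) * n) := Real.exp_le_exp.mpr h2.le
          _ ≤ _ := le_mul_of_one_le_left (Real.exp_pos _).le (by linarith)

theorem thm : G_CAT → G_SUBM ∧ G_FEK := fun h => ⟨subm h, fek (subm h)⟩

end Pool.Agent.Helper42.DB.PkSUBFEK
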